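import Mathlib
import Pool.Agent.R439.F40D

set_option autoImplicit false

/-!
The congruence modulo the cube of the cyclotomic polynomial for all `m` and all `n = 1 mod 4`.
-/

namespace Pool.Agent.Results.MP_40e425_nt.BlockCongruence

open Finset Polynomial Pool.Agent.R439

/-- `a_k(q)` -/
noncomputable def a (k : ℕ) : K :=
  ∏ j ∈ range k, ((1 - q ^ (2 * j + 1)) ^ 4 * (1 - q ^ (4 * j + 2))) /
    ((1 - q ^ (2 * j + 2)) ^ 4 * (1 - q ^ (4 * j + 4)))

/-- `c_k` -/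
def c (k : ℕ) : ℚ := (((2 * k).choose k : ℚ) / 4 ^ k) ^ 5

/-- `S_{m,n}(q)` -/
noncomputable def S (m n : ℕ) : K := ∑ k ∈ range (m * n), (-1) ^ k * qint (4 * k + 1) * a k * q ^ k

/-- `λ_n(q)` -/
noncomputable def lamn (n : ℕ) : K :=
  qint n * ∏ j ∈ range ((n - 1) / 4), ((1 - q ^ (4 * j + 2)) / (1 - q ^ (4 * j + 4))) ^ 2

/-- `T_{m,n}(q)` -/
noncomputable def T (m n : ℕ) : K :=
  lamn n * (((∑ k ∈ range m, (-1) ^ k * (4 * k + 1) * c k : ℚ)) : K)

theorem a_eq (k : ℕ) : a k =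
    (poch (q ^ 1) (q ^ (2 * 1)) k / poch (q ^ (2 * 1)) (q ^ (2 * 1)) k) ^ 4 *
      (poch (q ^ 2) (q ^ (2 * 2)) k / poch (q ^ (2 * 2)) (q ^ (2 * 2)) k) := by
  induction k with
  | zero => simp [a, poch]
  | succ k ih =>
    rw [a] at ih
    rw [a, prod_range_succ, ih, poch_succ, poch_succ, poch_succ, poch_succ]
    have e1 : (1 - q ^ 1 * (q ^ (2 * 1)) ^ k : K) = 1 - q ^ (2 * k + 1) := by
      rw [← pow_mul, ← pow_add]; congr 2; ring
    have e2 : (1 - q ^ (2 * 1) * (q ^ (2 * 1)) ^ k : K) = 1 - q ^ (2 * k + 2) := by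
      rw [← pow_mul, ← pow_add]; congr 2; ring
    have e3 : (1 - q ^ 2 * (q ^ (2 * 2)) ^ k : K) = 1 - q ^ (4 * k + 2) := by
      rw [← pow_mul, ← pow_add]; congr 2; ring
    have e4 : (1 - q ^ (2 * 2) * (q ^ (2 * 2)) ^ k : K) = 1 - q ^ (4 * k + 4) := by
      rw [← pow_mul, ← pow_add]; congr 2; ring
    rw [e1, e2, e3, e4]
    generalize (1 - q ^ (2 * k + 1) : K) = x
    generalize (1 - q ^ (2 * k + 2) : K) = y
    generalize (1 - q ^ (4 * k + 2) : K) = z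
    generalize (1 - q ^ (4 * k + 4) : K) = u
    ring

theorem c_eq (k : ℕ) : c k = ch k ^ 5 := by
  rw [c]
  congr 1
  induction k with
  | zero => simp [ch_zero]
  | succ k ih =>
    rw [ch_succ, ← ih]
    have h := Nat.succ_mul_centralBinom_succ k
    rw [Nat.centralBinom, Nat.centralBinom] at h
    have h' : ((k : ℚ) + 1) * ((2 * (k + 1)).choose (k + 1) : ℚ) = 2 * (2 * k + 1) * ((2 * k).choose k : ℚ) := by
      exact_mod_cast h
    have hk : (k : ℚ) + 1 ≠ 0 := by positivity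
    have h4 : (4 : ℚ) ^ k ≠ 0 := by positivity
    rw [pow_succ]
    have h2 : (2 : ℚ) * k + 2 ≠ 0 := by positivity
    field_simp
    linear_combination 2 * h'

theorem prodP (t : ℕ) : ∏ j ∈ range t, ((1 - q ^ (4 * j + 2)) / (1 - q ^ (4 * j + 4)) : K) ^ 2 =
    (poch (q ^ 2 : K) ((q ^ 2) ^ 2) t / poch ((q ^ 2 : K) ^ 2) ((q ^ 2) ^ 2) t) ^ 2 := by
  rw [prod_pow, poch, poch, ← prod_div_distrib]
  congr 1
  refine prod_congr rfl fun j _ => ?_
  have e1 : (q ^ 2 * ((q ^ 2) ^ 2) ^ j : K) = q ^ (4 * j + 2) := by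
    rw [← pow_mul, ← pow_mul, ← pow_add]; congr 1; ring
  have e2 : ((q ^ 2) ^ 2 * ((q ^ 2) ^ 2) ^ j : K) = q ^ (4 * j + 4) := by
    rw [← pow_mul, ← pow_mul, ← pow_add]; congr 1; ring
  rw [e1, e2]

section
variable {n : ℕ} [NeZero n]

/-- one term of block `j` -/
theorem term_eq {M : ℕ} (hn : n = 2 * M + 1) (j i : ℕ) :
    (-1) ^ (j * n + i) * (1 - q ^ (4 * ((j * n + i : ℕ) : ℤ) + 1)) * a (j * n + i) * q ^ (j * n + i) =
      (-1) ^ j * q ^ ((n : ℤ) * j) * (RR n 1 j ^ 4 * RR n 2 j) * tt n i ((2 * j : ℕ), 0) := by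
  rw [a_eq, ratio_block, ratio_block]
  simp only [tt, rr]
  have e1 : ((-1 : K)) ^ (j * n + i) = (-1) ^ j * (-1) ^ i := by
    rw [pow_add, hn, mul_comm j, pow_mul, pow_succ, pow_mul]; simp
  have e2 : (4 * ((j * n + i : ℕ) : ℤ) + 1) = ((4 * i + 1 : ℕ) : ℤ) + (n : ℤ) * (2 * ((2 * j : ℕ) : ℤ)) := by
    push_cast; ring
  have e3 : (q : K) ^ (j * n + i) = q ^ ((n : ℤ) * j) * q ^ i := by
    rw [pow_add, ← zpow_natCast q (j * n)]; congr 2; push_cast; ring
  rw [e1, e2, e3]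
  have e4 : (2 * (j : ℤ) * ((1 : ℕ) : ℤ)) = ((2 * j : ℕ) : ℤ) := by push_cast; ring
  have e5 : (2 * (j : ℤ) * ((2 : ℕ) : ℤ)) = 2 * ((2 * j : ℕ) : ℤ) := by push_cast; ring
  rw [e4, e5, add_zero, sub_zero]
  ring

theorem tail_I {M : ℕ} (hn : n = 2 * M + 1) {i : ℕ} (hi : M < i) (hi2 : i < n) (s : ℤ) :
    I n 3 (tt n i (s, 0)) := by
  have h1 : ∀ t, I n 1 (rr n 1 i t) := fun t => by
    rw [rr, div_eq_mul_inv]
    exact (g1_I hn 1 hi t).mulR (g2_U hn (cop1 n) hi2 t).2.2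
  have h2 : rr n 2 i (2 * s) ∈ O n := by
    rw [rr, div_eq_mul_inv]
    exact mul_mem ((gp_aff (pow_mem' _) _ _).mem _) (g2_U hn (cop2 hn) hi2 _).2.2
  have h3 : I n 4 (rr n 1 i (s + 0) * rr n 1 i (s - 0) * rr n 1 i s ^ 2) := by
    rw [pow_two, ← mul_assoc]
    exact (((h1 _).mul (h1 _)).mul (h1 _)).mul (h1 _)
  simp only [tt]
  refine I.mulL ?_ ((h3.mono (by omega)).mulR h2)
  exact mul_mem (mul_mem (pow_mem (neg_mem (one_mem _)) _) (sub_mem (one_mem _) (zpow_mem _))) (pow_mem' _)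

theorem block {t : ℕ} (hn : n = 4 * t + 1) (j : ℕ) :
    I n 3 (∑ i ∈ range n, (-1) ^ (j * n + i) * (1 - q ^ (4 * ((j * n + i : ℕ) : ℤ) + 1)) * a (j * n + i) *
        q ^ (j * n + i) - (-1) ^ j * ((4 * (j : K) + 1) * (c j : K)) *
      (w n * (poch (q ^ 2 : K) ((q ^ 2) ^ 2) t / poch ((q ^ 2 : K) ^ 2) ((q ^ 2) ^ 2) t) ^ 2)) := by
  have hn' : n = 2 * (2 * t) + 1 := by omega
  set PP : K := (poch (q ^ 2 : K) ((q ^ 2) ^ 2) t / poch ((q ^ 2 : K) ^ 2) ((q ^ 2) ^ 2) t) ^ 2 with hPP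
  rw [sum_congr rfl fun i _ => term_eq hn' j i, ← mul_sum]
  set pre : K := (-1) ^ j * q ^ ((n : ℤ) * j) * (RR n 1 j ^ 4 * RR n 2 j) with hpre
  have hb := TT_block hn j
  rw [← hPP] at hb
  have hR1 := RR_exp hn' one_pos (cop1 n) j
  have hR2 := RR_exp hn' two_pos (cop2 hn') j
  have x1 := xr_mem (M := 2 * t) hn' (cop1 n)
  have x2 := xr_mem (M := 2 * t) hn' (cop2 hn')
  have E1 : Ex n (RR n 1 j) (ch j : K) ((j : K) * xr 1 (2 * t)) :=
    ⟨rat_mem _, mul_mem (natCast_mem _ _) x1, hR1⟩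
  have E2 : Ex n (RR n 2 j) (ch j : K) ((j : K) * xr 2 (2 * t)) :=
    ⟨rat_mem _, mul_mem (natCast_mem _ _) x2, hR2⟩
  have E3 := Ex.qpow (n := n) 0 (j : ℤ)
  rw [zpow_zero, zero_add] at E3
  have hm : ((-1) ^ j : K) ∈ O n := pow_mem (neg_mem (one_mem _)) _
  have E4 := ((Ex.const (n := n) hm).mul E3).mul ((E1.pow 4).mul E2)
  rw [← hpre] at E4
  have hpre_mem : pre ∈ O n := E4.2.2.1
  -- PP is regular
  have hPPm : PP ∈ O n := by
    rw [hPP]
    refine pow_mem ?_ 2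
    rw [div_eq_mul_inv]
    refine mul_mem (prod_mem fun i _ => sub_mem (one_mem _) ?_) ?_
    · exact mul_mem (pow_mem' _) (pow_mem (pow_mem (pow_mem' _) _) _)
    · have : U n (poch ((q ^ 2 : K) ^ 2) ((q ^ 2) ^ 2) t) := by
        rw [poch]
        refine U.prod fun i hi => ?_
        have hi' := mem_range.1 hi
        have e : (q ^ 2 : K) ^ 2 * ((q ^ 2) ^ 2) ^ i = q ^ ((4 * (i + 1) : ℕ) : ℤ) := by
          rw [zpow_natCast, ← pow_mul, ← pow_mul, ← pow_add]; congr 1; ring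
        rw [e]
        refine U_one_sub fun h => ?_
        have h2 : n ∣ 4 * (i + 1) := by exact_mod_cast h
        have h4 : Nat.Coprime n 4 := by
          have := cop2 (n := n) hn'
          exact Nat.Coprime.pow_right 2 this
        have h5 := h4.dvd_of_dvd_mul_left h2
        exact absurd (Nat.le_of_dvd (Nat.succ_pos _) h5) (by omega)
      exact this.2.2
  have m4 : (4 : K) ∈ O n := by exact_mod_cast nat_mem (n := n) 4
  have hc2 := c2_mem (M := 2 * t) hn'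
  have hjm : (4 * (j : K) + 1) ∈ O n := add_mem (mul_mem m4 (natCast_mem _ _)) (one_mem _)
  -- split the sum
  have hs : ∑ i ∈ range n, tt n i ((2 * j : ℕ), 0) =
      TT n (2 * t) ((2 * j : ℕ), 0) + ∑ i ∈ range (2 * t), tt n (2 * t + 1 + i) ((2 * j : ℕ), 0) := by
    conv_lhs => rw [show range n = range (2 * t + 1 + 2 * t) by congr 1; omega]
    rw [sum_range_add]
    rfl
  have htail : I n 3 (∑ i ∈ range (2 * t), tt n (2 * t + 1 + i) ((2 * j : ℕ), 0)) :=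
    I.sum fun i hi => tail_I hn' (by omega) (by have := mem_range.1 hi; omega) _
  have e0 : 0 + -((j : ℤ) : K) + (((4 : ℕ) : K) * ((j : K) * xr 1 (2 * t)) + (j : K) * xr 2 (2 * t)) =
      -(c2 (2 * t) * j) := by
    rw [c2, dl, dl, xr, xr]; push_cast; ring
  rw [e0] at E4
  obtain ⟨y, hy, ey⟩ := E4.2.2.2.2
  -- main computation
  have hfin : pre * ((4 * (j : K) + 1) * (1 + w n * (c2 (2 * t) * j)) * (w n * PP)) -
      (-1) ^ j * ((4 * (j : K) + 1) * (c j : K)) * (w n * PP) =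
      w n ^ 3 * ((4 * (j : K) + 1) * PP * (y * (1 + w n * (c2 (2 * t) * j)) -
        (-1) ^ j * (ch j : K) ^ 5 * (c2 (2 * t) * j) ^ 2)) := by
    rw [c_eq]
    have e1 : ((ch j ^ 5 : ℚ) : K) = (ch j : K) ^ 5 := by push_cast; ring
    rw [e1]
    linear_combination (4 * (j : K) + 1) * (1 + w n * (c2 (2 * t) * j)) * (w n * PP) * ey
  have h1 : I n 3 (pre * (TT n (2 * t) ((2 * j : ℕ), 0) -
      (4 * (j : K) + 1) * (1 + w n * (c2 (2 * t) * j)) * (w n * PP))) := hb.mulL hpre_mem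
  have h2 := htail.mulL hpre_mem
  have h3 : I n 3 (pre * ((4 * (j : K) + 1) * (1 + w n * (c2 (2 * t) * j)) * (w n * PP)) -
      (-1) ^ j * ((4 * (j : K) + 1) * (c j : K)) * (w n * PP)) := by
    rw [hfin]
    refine ⟨_, ?_, rfl⟩
    refine mul_mem (mul_mem hjm hPPm) (sub_mem (mul_mem hy (add_mem (one_mem _) (mul_mem w_mem
      (mul_mem hc2 (natCast_mem _ _))))) (mul_mem (mul_mem hm (pow_mem (rat_mem _) _))
      (pow_mem (mul_mem hc2 (natCast_mem _ _)) _)))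
  have h4 := (h1.add h2).add h3
  rw [hs]
  convert h4 using 1
  ring

/-- all `n > 1` -/
theorem big {t : ℕ} (hn : n = 4 * t + 1) (h1 : 1 < n) (m : ℕ) : I n 3 (S m n - T m n) := by
  have hU : U n (1 - q : K) := by
    have := U_one_sub (n := n) (e := 1) (by
      intro h
      have h2 : n ∣ 1 := by exact_mod_cast h
      have := Nat.le_of_dvd one_pos h2
      omega)
    rwa [zpow_one] at this
  refine I.cancel hU.1 hU.2.2 ?_
  have hb := I.sum (n := n) (k := 3) (s := range m) fun j _ => block hn j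
  have e1 : (1 - q) * (S m n - T m n) = ∑ j ∈ range m, (∑ i ∈ range n, (-1) ^ (j * n + i) *
      (1 - q ^ (4 * ((j * n + i : ℕ) : ℤ) + 1)) * a (j * n + i) *
        q ^ (j * n + i) - (-1) ^ j * ((4 * (j : K) + 1) * (c j : K)) *
      (w n * (poch (q ^ 2 : K) ((q ^ 2) ^ 2) t / poch ((q ^ 2 : K) ^ 2) ((q ^ 2) ^ 2) t) ^ 2)) := by
    rw [sum_sub_distrib, ← sum_blocks (fun k => (-1) ^ k * (1 - q ^ (4 * (k : ℤ) + 1)) * a k * q ^ k),
      ← sum_mul, mul_sub]
    congr 1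
    · rw [S, mul_sum]
      refine sum_congr rfl fun k _ => ?_
      rw [qint]
      have := hU.1
      field_simp
    · rw [T, lamn, qint, show (n - 1) / 4 = t by omega, prodP, w, zpow_natCast]
      push_cast
      have := hU.1
      field_simp
  rw [e1]
  exact hb

end

/-! ### The case `n = 1` -/

/-- second-order expansion -/
def Ex3 (x c a b : K) : Prop := c ∈ O 1 ∧ a ∈ O 1 ∧ b ∈ O 1 ∧ EQ 1 3 x (c * (1 + w 1 * a + w 1 ^ 2 * b))

theorem Ex3.mul {x c a b y d e f : K} (h : Ex3 x c a b) (h' : Ex3 y d e f) :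
    Ex3 (x * y) (c * d) (a + e) (b + f + a * e) := by
  obtain ⟨h1, h2, h3, h4⟩ := h
  obtain ⟨k1, k2, k3, k4⟩ := h'
  refine ⟨mul_mem h1 k1, add_mem h2 k2, add_mem (add_mem h3 k3) (mul_mem h2 k2), (h4.mul k4).trans ?_⟩
  have hw : w 1 ∈ O 1 := w_mem
  refine ⟨?_, ?_, ⟨c * d * (a * f + b * e + w 1 * (b * f)), ?_, by ring⟩⟩
  · exact mul_mem (mul_mem h1 (add_mem (add_mem (one_mem _) (mul_mem hw h2)) (mul_mem (pow_mem hw 2) h3)))
      (mul_mem k1 (add_mem (add_mem (one_mem _) (mul_mem hw k2)) (mul_mem (pow_mem hw 2) k3)))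
  · exact mul_mem (mul_mem h1 k1) (add_mem (add_mem (one_mem _) (mul_mem hw (add_mem h2 k2)))
      (mul_mem (pow_mem hw 2) (add_mem (add_mem h3 k3) (mul_mem h2 k2))))
  · exact mul_mem (mul_mem h1 k1) (add_mem (add_mem (mul_mem h2 k3) (mul_mem h3 k2))
      (mul_mem hw (mul_mem h3 k3)))

theorem Ex3.pow4 {x c a b : K} (h : Ex3 x c a b) :
    Ex3 (x ^ 4) (c ^ 4) (4 * a) (4 * b + 6 * a ^ 2) := by
  have h2 := h.mul h
  have h4 := h2.mul h2
  have e1 : x * x * (x * x) = x ^ 4 := by ring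
  have e2 : c * c * (c * c) = c ^ 4 := by ring
  have e3 : a + a + (a + a) = 4 * a := by ring
  have e4 : b + b + a * a + (b + b + a * a) + (a + a) * (a + a) = 4 * b + 6 * a ^ 2 := by ring
  rwa [e1, e2, e3, e4] at h4

/-- `[s]` as a rational function -/
noncomputable def br (s : ℕ) : K := (1 - q ^ s) / (1 - q)

theorem one_sub_q : (1 - q : K) ≠ 0 := by
  have := one_sub_pow_ne (j := 1) one_ne_zero; rwa [pow_one] at this

theorem w1 : w 1 = 1 - q := by rw [w, pow_one]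

theorem br_rec (s : ℕ) : br (s + 1) = br s * (1 - w 1) + 1 := by
  rw [br, br, w1, pow_succ]
  have := one_sub_q
  field_simp
  ring

theorem third_mem : (3 : K)⁻¹ ∈ O 1 := by
  have := natinv_mem (n := 1) 3; exact_mod_cast this

theorem sixth_mem : (6 : K)⁻¹ ∈ O 1 := by
  have := natinv_mem (n := 1) 6; exact_mod_cast this

theorem half1_mem : (2 : K)⁻¹ ∈ O 1 := by
  have := natinv_mem (n := 1) 2; exact_mod_cast this

theorem br_exp (s : ℕ) : Ex3 (br s) s (-((s : K) - 1) / 2) (((s : K) - 1) * ((s : K) - 2) / 6) := by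
  have hs : (s : K) ∈ O 1 := natCast_mem _ _
  have hw : w 1 ∈ O 1 := w_mem
  have m2 : (2 : K) ∈ O 1 := by exact_mod_cast nat_mem (n := 1) 2
  have ha : -((s : K) - 1) / 2 ∈ O 1 := by
    rw [div_eq_mul_inv]; exact mul_mem (neg_mem (sub_mem hs (one_mem _))) half1_mem
  have hb : ((s : K) - 1) * ((s : K) - 2) / 6 ∈ O 1 := by
    rw [div_eq_mul_inv]; exact mul_mem (mul_mem (sub_mem hs (one_mem _)) (sub_mem hs m2)) sixth_mem
  have key : ∃ y ∈ O 1, br s = (s : K) * (1 + w 1 * (-((s : K) - 1) / 2) +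
      w 1 ^ 2 * (((s : K) - 1) * ((s : K) - 2) / 6)) + w 1 ^ 3 * y := by
    clear hs ha hb
    induction s with
    | zero => exact ⟨0, zero_mem _, by simp [br]⟩
    | succ s ih =>
      obtain ⟨y, hy, ey⟩ := ih
      have hs : (s : K) ∈ O 1 := natCast_mem _ _
      refine ⟨y * (1 - w 1) - (s : K) * ((s : K) - 1) * ((s : K) - 2) * 6⁻¹, ?_, ?_⟩
      · exact sub_mem (mul_mem hy (sub_mem (one_mem _) hw))
          (mul_mem (mul_mem (mul_mem hs (sub_mem hs (one_mem _))) (sub_mem hs m2)) sixth_mem)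
      · rw [br_rec, ey]; push_cast; ring
  obtain ⟨y, hy, ey⟩ := key
  have hm : (s : K) * (1 + w 1 * (-((s : K) - 1) / 2) +
      w 1 ^ 2 * (((s : K) - 1) * ((s : K) - 2) / 6)) ∈ O 1 :=
    mul_mem hs (add_mem (add_mem (one_mem _) (mul_mem hw ha)) (mul_mem (pow_mem hw 2) hb))
  refine ⟨hs, ha, hb, ?_, hm, ?_⟩
  · rw [ey]; exact add_mem hm (mul_mem (pow_mem hw 3) hy)
  · rw [ey, add_sub_cancel_left]; exact ⟨y, hy, rfl⟩

theorem br_U {s : ℕ} (hs : s ≠ 0) : U 1 (br s) := by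
  have h := qi_U (n := 1) (s := (s : ℤ)) (by exact_mod_cast hs)
  have e : qi 1 (s : ℤ) = br s := by
    rw [qi, br, w1]; push_cast; rw [one_mul, zpow_natCast]
  rwa [e] at h

/-- the quotient of consecutive terms -/
theorem ratio_one (k : ℕ) :
    EQ 1 3 ((br (4 * k + 5) * q * (br (2 * k + 1) ^ 4 * br (4 * k + 2))) /
      (br (4 * k + 1) * (br (2 * k + 2) ^ 4 * br (4 * k + 4))))
      (((4 * k + 5) * ((2 * k + 1) ^ 4 * (4 * k + 2)) / ((4 * k + 1) * ((2 * k + 2) ^ 4 * (4 * k + 4))) : ℚ) : K) := by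
  have hw : w 1 ∈ O 1 := w_mem
  have hq : Ex3 q 1 (-1) 0 := by
    refine ⟨one_mem _, neg_mem (one_mem _), zero_mem _, ?_⟩
    have : (1 : K) * (1 + w 1 * (-1) + w 1 ^ 2 * 0) = q := by rw [w1]; ring
    rw [this]; exact EQ.refl q_mem
  have hN := ((br_exp (4 * k + 5)).mul hq).mul ((br_exp (2 * k + 1)).pow4.mul (br_exp (4 * k + 2)))
  have hD := (br_exp (4 * k + 1)).mul ((br_exp (2 * k + 2)).pow4.mul (br_exp (4 * k + 4)))
  obtain ⟨n1, n2, n3, n4⟩ := hN
  obtain ⟨d1, d2, d3, d4⟩ := hD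
  set N : K := br (4 * k + 5) * q * (br (2 * k + 1) ^ 4 * br (4 * k + 2)) with hNd
  set D : K := br (4 * k + 1) * (br (2 * k + 2) ^ 4 * br (4 * k + 4)) with hDd
  have hDU : U 1 D := (br_U (by omega)).mul (((br_U (by omega)).pow 4).mul (br_U (by omega)))
  set cN : ℚ := (4 * k + 5) * ((2 * k + 1) ^ 4 * (4 * k + 2)) with hcN
  set cD : ℚ := (4 * k + 1) * ((2 * k + 2) ^ 4 * (4 * k + 4)) with hcD
  have hcD0 : cD ≠ 0 := by positivity
  set X : K := 1 + w 1 * (-(6 * (k : K) + 3 + (4 * k + 1) / 2)) + w 1 ^ 2 *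
    ((((4 * k + 5 : ℕ) : K) - 1) * (((4 * k + 5 : ℕ) : K) - 2) / 6 + 0 +
      -(((4 * k + 5 : ℕ) : K) - 1) / 2 * (-1) +
      (4 * ((((2 * k + 1 : ℕ) : K) - 1) * (((2 * k + 1 : ℕ) : K) - 2) / 6) +
        6 * (-(((2 * k + 1 : ℕ) : K) - 1) / 2) ^ 2 +
        (((4 * k + 2 : ℕ) : K) - 1) * (((4 * k + 2 : ℕ) : K) - 2) / 6 +
        4 * (-(((2 * k + 1 : ℕ) : K) - 1) / 2) * (-(((4 * k + 2 : ℕ) : K) - 1) / 2)) +
      (-(((4 * k + 5 : ℕ) : K) - 1) / 2 + -1) *
        (4 * (-(((2 * k + 1 : ℕ) : K) - 1) / 2) + -(((4 * k + 2 : ℕ) : K) - 1) / 2)) with hX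
  have eN : EQ 1 3 N ((cN : K) * X) := by
    convert n4 using 1
    rw [hX, hcN]; push_cast; ring
  have eD : EQ 1 3 D ((cD : K) * X) := by
    convert d4 using 1
    rw [hX, hcD]; push_cast; ring
  have h1 : EQ 1 3 (N * (cD : K)) ((cN : K) * D) := by
    have a1 := eN.mul (EQ.refl (n := 1) (k := 3) (rat_mem cD))
    have a2 := (EQ.refl (n := 1) (k := 3) (rat_mem cN)).mul eD
    rw [show (cN : K) * X * (cD : K) = (cN : K) * ((cD : K) * X) by ring] at a1
    exact a1.trans a2.symm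
  have hcDK : (cD : K) ≠ 0 := by exact_mod_cast hcD0
  have h2 := h1.div (by omega) (EQ.refl (n := 1) (k := 3) (hDU.mul (U_rat hcD0)).2.1)
    (hDU.mul (U_rat hcD0))
  have e1 : N * (cD : K) / (D * (cD : K)) = N / D := by rw [mul_div_mul_right _ _ hcDK]
  have e2 : (cN : K) * D / (D * (cD : K)) = ((cN / cD : ℚ) : K) := by
    push_cast
    have := hDU.1
    field_simp
  rwa [e1, e2] at h2

theorem term_one (k : ℕ) : EQ 1 3 (qint (4 * k + 1) * a k * q ^ k) (((4 * k + 1) * c k : ℚ) : K) := by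
  induction k with
  | zero =>
    have e1 : qint (4 * ((0 : ℕ) : ℤ) + 1) = 1 := by
      rw [qint]; simp only [Nat.cast_zero, mul_zero, zero_add, zpow_one]; exact div_self one_sub_q
    have e2 : a 0 = 1 := by simp [a]
    have e3 : c 0 = 1 := by simp [c]
    rw [e1, e2, e3]
    simpa using EQ.refl (n := 1) (k := 3) (one_mem (O 1))
  | succ k ih =>
    have h := ih.mul (ratio_one k)
    have e1 : ∀ s : ℕ, (1 - q ^ s : K) = (1 - q) * br s := fun s => by
      rw [br, mul_div_cancel₀]; exact one_sub_q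
    have e2 : qint (4 * ((k + 1 : ℕ) : ℤ) + 1) = br (4 * k + 5) := by
      rw [qint, br, show (4 * ((k + 1 : ℕ) : ℤ) + 1) = ((4 * k + 5 : ℕ) : ℤ) by push_cast; ring, zpow_natCast]
    have e3 : qint (4 * (k : ℤ) + 1) = br (4 * k + 1) := by
      rw [qint, br, show (4 * (k : ℤ) + 1) = ((4 * k + 1 : ℕ) : ℤ) by push_cast; ring, zpow_natCast]
    have e4 : a (k + 1) = a k * ((br (2 * k + 1) ^ 4 * br (4 * k + 2)) / (br (2 * k + 2) ^ 4 * br (4 * k + 4))) := by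
      rw [a, prod_range_succ, ← a, e1, e1, e1, e1]
      have h0 := one_sub_q
      have b1 := (br_U (s := 2 * k + 2) (by omega)).1
      have b2 := (br_U (s := 4 * k + 4) (by omega)).1
      field_simp
    have e5 : ((4 * ((k + 1 : ℕ) : ℚ) + 1) * c (k + 1)) = ((4 * k + 1) * c k) *
        ((4 * k + 5) * ((2 * k + 1) ^ 4 * (4 * k + 2)) / ((4 * k + 1) * ((2 * k + 2) ^ 4 * (4 * k + 4)))) := by
      rw [c_eq, c_eq, ch_succ]
      push_cast
      have : (4 * (k : ℚ) + 1) ≠ 0 := by positivity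
      have : (k : ℚ) + 1 ≠ 0 := by positivity
      field_simp
      ring
    rw [e3] at h
    rw [e2, e4, e5]
    have b1 := (br_U (s := 4 * k + 1) (by omega)).1
    have b2 := (br_U (s := 2 * k + 2) (by omega)).1
    have b3 := (br_U (s := 4 * k + 4) (by omega)).1
    convert h using 1
    · field_simp
      ring
    · rw [← Rat.cast_mul]

theorem small (m : ℕ) : I 1 3 (S m 1 - T m 1) := by
  have e1 : S m 1 - T m 1 = ∑ k ∈ range m, ((-1) ^ k * (qint (4 * k + 1) * a k * q ^ k) -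
      (-1) ^ k * (((4 * k + 1) * c k : ℚ) : K)) := by
    rw [sum_sub_distrib, S, T, lamn, mul_one]
    congr 1
    · exact sum_congr rfl fun k _ => by ring
    · have : qint ((1 : ℕ) : ℤ) = 1 := by
        rw [qint, Nat.cast_one, zpow_one]; exact div_self one_sub_q
      rw [this]
      simp only [Nat.sub_self, Nat.zero_div, range_zero, prod_empty, one_mul]
      rw [Rat.cast_sum]
      exact sum_congr rfl fun k _ => by push_cast; ring
  rw [e1]
  refine I.sum fun k _ => ?_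
  rw [← mul_sub]
  exact (term_one k).2.2.mulL (pow_mem (neg_mem (one_mem _)) _)

/-- For all `m ≥ 1` and all `n ≥ 1` with `n ≡ 1 (mod 4)`, `S_{m,n}(q) ≡ T_{m,n}(q)` modulo
`Φ_n(q)^3`. -/
theorem result : ∀ m n : ℕ, 1 ≤ m → 1 ≤ n → n % 4 = 1 → Cong (cyclotomic n ℚ ^ 3) (S m n) (T m n) := by
  intro m n _ hn h4
  have : NeZero n := ⟨by omega⟩
  rw [Cong]
  apply num_of_I
  rcases Nat.lt_or_ge 1 n with h | h
  · exact big (t := n / 4) (by omega) h m
  · have : n = 1 := by omega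
    subst this
    exact small m

end Pool.Agent.Results.MP_40e425_nt.BlockCongruence
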